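import Mathlib

/-!
Cubic graphs with multiple edges, loops and semi-edges, given by their edge-ends.
Colourings, `ZMod 3`-flows, covers, parity lemmas.
-/

namespace Q116.SC

open Finset

/-- A graph which may have multiple edges, loops and semi-edges, given by its edge-ends:
`vert d` is the vertex of the edge-end `d`, and `op d` is the other end of its edge; a semi-edge
has a single end `d`, and `op d = d`. A loop has two ends `d ≠ op d` at the same vertex. -/
structure MGraph (V D : Type) where
  /-- the vertex of an edge-end -/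
  vert : D → V
  /-- the other end of the edge (the same end for a semi-edge) -/
  op : D → D
  op_op : ∀ d, op (op d) = d

variable {V D V' D' V'' D'' : Type}

/-- Every vertex has exactly three edge-ends. -/
def MGraph.Cubic (G : MGraph V D) : Prop :=
  ∀ v, Nat.card {d // G.vert d = v} = 3

/-- There is a vertex, and any two vertices are joined by a walk. -/
def MGraph.Connected (G : MGraph V D) : Prop :=
  Nonempty V ∧ ∀ u v, Relation.ReflTransGen
    (fun a b => ∃ d, G.vert d = a ∧ G.vert (G.op d) = b) u v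

/-- There is a colouring of the edges with three colours such that the edge-ends at every vertex
carry distinct colours. -/
def MGraph.Colorable (G : MGraph V D) : Prop :=
  ∃ c : D → Fin 3, (∀ d, c (G.op d) = c d) ∧ ∀ d e, G.vert d = G.vert e → c d = c e → d = e

/-- `(f, F)` is a cover of `G` by `G'`. -/
structure IsCover (G' : MGraph V' D') (G : MGraph V D) (f : V' → V) (F : D' → D) : Prop where
  vert : ∀ z, G.vert (F z) = f (G'.vert z)
  op : ∀ z, F (G'.op z) = G.op (F z)
  bij : ∀ w d, G.vert d = f w → ∃! z, G'.vert z = w ∧ F z = d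

def Covers (G' : MGraph V' D') (G : MGraph V D) : Prop :=
  ∃ f F, IsCover G' G f F

theorem IsCover.trans {G'' : MGraph V'' D''} {G' : MGraph V' D'} {G : MGraph V D}
    {f' F' f F} (h' : IsCover G'' G' f' F') (h : IsCover G' G f F) :
    IsCover G'' G (f ∘ f') (F ∘ F') where
  vert z := by simp only [Function.comp_apply, h.vert, h'.vert]
  op z := by simp only [Function.comp_apply, h.op, h'.op]
  bij w d hd := by
    obtain ⟨z, ⟨hz1, hz2⟩, hz3⟩ := h.bij (f' w) d hd
    obtain ⟨y, ⟨hy1, hy2⟩, hy3⟩ := h'.bij w z hz1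
    refine ⟨y, ⟨hy1, ?_⟩, ?_⟩
    · simp only [Function.comp_apply, hy2, hz2]
    · rintro y' ⟨h1, h2⟩
      apply hy3
      refine ⟨h1, ?_⟩
      apply hz3
      refine ⟨?_, h2⟩
      rw [h'.vert, h1]

theorem Covers.trans {G'' : MGraph V'' D''} {G' : MGraph V' D'} {G : MGraph V D}
    (h' : Covers G'' G') (h : Covers G' G) : Covers G'' G := by
  obtain ⟨f', F', h'⟩ := h'
  obtain ⟨f, F, h⟩ := h
  exact ⟨_, _, h'.trans h⟩

theorem Covers.refl (G : MGraph V D) : Covers G G :=
  ⟨id, id, ⟨fun _ => rfl, fun _ => rfl, fun w d hd => ⟨d, ⟨hd, rfl⟩, fun _ h => h.2⟩⟩⟩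

theorem IsCover.cubic {G' : MGraph V' D'} {G : MGraph V D} {f F} (h : IsCover G' G f F)
    (hG : G.Cubic) : G'.Cubic := by
  intro w
  rw [← hG (f w)]
  refine Nat.card_congr (Equiv.ofBijective
    (fun z : {z // G'.vert z = w} => (⟨F z.1, by rw [h.vert, z.2]⟩ : {d // G.vert d = f w})) ?_)
  constructor
  · intro z z' hzz
    have h1 : F z.1 = F z'.1 := congrArg Subtype.val hzz
    have h2 := h.bij w (F z.1) (by rw [h.vert, z.2])
    exact Subtype.ext (h2.unique ⟨z.2, rfl⟩ ⟨z'.2, h1.symm⟩)
  · intro d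
    obtain ⟨z, ⟨hz1, hz2⟩, -⟩ := h.bij w d.1 d.2
    exact ⟨⟨z, hz1⟩, Subtype.ext hz2⟩

theorem Covers.cubic {G' : MGraph V' D'} {G : MGraph V D} (h : Covers G' G)
    (hG : G.Cubic) : G'.Cubic := by
  obtain ⟨f, F, h⟩ := h
  exact h.cubic hG

/-! ### Sums -/

section Sums

open Classical in
theorem sum_invol {M : Type} [AddCommGroup M] [Fintype D] (G : MGraph V D)
    (hs : ∀ d, G.op d ≠ d) (g : D → M) (hg : ∀ d, g d + g (G.op d) = 0)
    (Z : Finset V) (S : Finset D)
    (hS : ∀ d, d ∈ S ↔ G.vert d ∈ Z ∧ G.vert (G.op d) ∉ Z) :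
    ∑ d ∈ univ.filter (fun d => G.vert d ∈ Z), g d = ∑ d ∈ S, g d := by
  have h1 : univ.filter (fun d => G.vert d ∈ Z)
      = S ∪ univ.filter (fun d => G.vert d ∈ Z ∧ G.vert (G.op d) ∈ Z) := by
    ext d
    simp only [mem_filter, mem_univ, true_and, mem_union, hS]
    tauto
  have h2 : Disjoint S (univ.filter (fun d => G.vert d ∈ Z ∧ G.vert (G.op d) ∈ Z)) := by
    rw [Finset.disjoint_left]
    intro d hd hd2
    rw [hS] at hd
    simp only [mem_filter, mem_univ, true_and] at hd2
    exact hd.2 hd2.2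
  rw [h1, Finset.sum_union h2]
  have h3 : ∑ d ∈ univ.filter (fun d => G.vert d ∈ Z ∧ G.vert (G.op d) ∈ Z), g d = 0 := by
    refine Finset.sum_involution (fun d _ => G.op d) ?_ ?_ ?_ ?_
    · intro d _
      exact hg d
    · intro d _ _
      exact hs d
    · intro d hd
      simp only [mem_filter, mem_univ, true_and] at hd ⊢
      rw [G.op_op]
      exact ⟨hd.2, hd.1⟩
    · intro d _
      exact G.op_op d
  rw [h3, add_zero]

open Classical in
theorem Cubic.card {G : MGraph V D} [Fintype D] (hG : G.Cubic) (v : V) :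
    (univ.filter (fun d => G.vert d = v)).card = 3 := by
  have := hG v
  rw [Nat.card_eq_fintype_card, Fintype.card_subtype] at this
  exact this

open Classical in
theorem sum_vert {M : Type} [AddCommMonoid M] [Fintype D] {G : MGraph V D} (hG : G.Cubic)
    (Z : Finset V) (q : V → M) :
    ∑ d ∈ univ.filter (fun d => G.vert d ∈ Z), q (G.vert d) = ∑ v ∈ Z, 3 • q v := by
  have h0 : ∀ d ∈ univ.filter (fun d => G.vert d ∈ Z), G.vert d ∈ Z := by
    intro d hd
    simpa using hd
  rw [← Finset.sum_fiberwise_of_maps_to h0]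
  refine Finset.sum_congr rfl (fun v hv => ?_)
  have h1 : (univ.filter (fun d => G.vert d ∈ Z)).filter (fun d => G.vert d = v)
      = univ.filter (fun d => G.vert d = v) := by
    ext d
    simp only [mem_filter, mem_univ, true_and]
    constructor
    · exact fun h => h.2
    · exact fun h => ⟨by rw [h]; exact hv, h⟩
  rw [h1]
  have h2 : ∀ d ∈ univ.filter (fun d => G.vert d = v), q (G.vert d) = q v := by
    intro d hd
    simp only [mem_filter, mem_univ, true_and] at hd
    rw [hd]
  rw [Finset.sum_congr rfl h2, Finset.sum_const, Cubic.card hG]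

theorem sum_cubic [Fintype V] [Fintype D] {G : MGraph V D} (hG : G.Cubic)
    (q : V → ZMod 3) : ∑ d, q (G.vert d) = 0 := by
  classical
  have h := sum_vert hG univ q
  have h1 : univ.filter (fun d => G.vert d ∈ (univ : Finset V)) = univ := by
    ext d
    simp
  rw [h1] at h
  rw [h]
  apply Finset.sum_eq_zero
  intro v _
  have h3 : (3 : ZMod 3) = 0 := by decide
  have : (3 : ℕ) • q v = (3 : ZMod 3) * q v := by
    rw [nsmul_eq_mul]
    norm_num
  rw [this, h3, zero_mul]

/-- Parity of a vertex set and of its edge cut. -/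
theorem parity_deg [Fintype D] {G : MGraph V D} (hG : G.Cubic)
    (hs : ∀ d, G.op d ≠ d) (Z : Finset V) (S : Finset D)
    (hS : ∀ d, d ∈ S ↔ G.vert d ∈ Z ∧ G.vert (G.op d) ∉ Z) :
    (Z.card : ZMod 2) = (S.card : ZMod 2) := by
  classical
  have h := sum_invol G hs (fun _ => (1 : ZMod 2)) (fun _ => by decide) Z S hS
  have h2 := sum_vert hG Z (fun _ => (1 : ZMod 2))
  rw [h] at h2
  simp only [Finset.sum_const, nsmul_eq_mul, mul_one] at h2
  rw [h2]
  have : ((3 : ℕ) : ZMod 2) = 1 := by decide
  rw [this, mul_one]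

open Classical in
/-- Colour parity: the parity lemma. -/
theorem parity [Fintype D] {G : MGraph V D} (hG : G.Cubic)
    (hs : ∀ d, G.op d ≠ d) (c : D → Fin 3) (hc : ∀ d, c (G.op d) = c d)
    (hi : ∀ d e, G.vert d = G.vert e → c d = c e → d = e) (Z : Finset V) (S : Finset D)
    (hS : ∀ d, d ∈ S ↔ G.vert d ∈ Z ∧ G.vert (G.op d) ∉ Z) (k : Fin 3) :
    (Z.card : ZMod 2) = ∑ d ∈ S, if c d = k then (1 : ZMod 2) else 0 := by
  have h := sum_invol G hs (fun d => if c d = k then (1 : ZMod 2) else 0) (fun d => by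
    rw [hc]
    by_cases h : c d = k
    · simp only [h, if_true]; decide
    · simp only [h, if_false, add_zero]) Z S hS
  rw [← h, ← Finset.sum_filter, Finset.sum_const, nsmul_eq_mul, mul_one]
  congr 1
  symm
  refine Finset.card_nbij G.vert ?_ ?_ ?_
  · intro d hd
    rw [Finset.mem_coe] at hd ⊢
    simp only [mem_filter, mem_univ, true_and] at hd
    exact hd.1
  · intro d hd e he hde
    rw [Finset.mem_coe] at hd he
    simp only [mem_filter, mem_univ, true_and] at hd he
    exact hi d e hde (hd.2.trans he.2.symm)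
  · intro v hv
    have hv' : v ∈ Z := hv
    have h3 := Cubic.card hG v
    have h4 : ((univ.filter (fun d => G.vert d = v)).image c) = univ := by
      apply Finset.eq_univ_of_card
      rw [Finset.card_image_of_injOn, h3]
      · rfl
      · intro d hd e he hde
        simp only [coe_filter, mem_univ, true_and, Set.mem_setOf_eq] at hd he
        exact hi d e (hd.trans he.symm) hde
    have h5 : k ∈ ((univ.filter (fun d => G.vert d = v)).image c) := by
      rw [h4]; exact mem_univ k
    rw [Finset.mem_image] at h5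
    obtain ⟨d, hd, hk⟩ := h5
    simp only [mem_filter, mem_univ, true_and] at hd
    refine ⟨d, ?_, hd⟩
    simp only [coe_filter, mem_filter, mem_univ, true_and, Set.mem_setOf_eq]
    exact ⟨by rw [hd]; exact hv', hk⟩

end Sums

/-! ### Flows -/

/-- A flow with values in `ZMod 3`. -/
def MGraph.IsFlow [Fintype D] (G : MGraph V D) (φ : D → ZMod 3) : Prop :=
  (∀ d, φ (G.op d) = - φ d) ∧ ∀ p : V → ZMod 3, ∑ d, p (G.vert d) * φ d = 0

/-- Every edge-end has nonzero value in some flow. -/
def MGraph.Bridgeless [Fintype D] (G : MGraph V D) : Prop :=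
  ∀ d, ∃ φ, G.IsFlow φ ∧ φ d ≠ 0

theorem flow_cut [Fintype D] (G : MGraph V D) (hs : ∀ d, G.op d ≠ d) {φ : D → ZMod 3}
    (hφ : G.IsFlow φ) (Z : Finset V) (S : Finset D)
    (hS : ∀ d, d ∈ S ↔ G.vert d ∈ Z ∧ G.vert (G.op d) ∉ Z) : ∑ d ∈ S, φ d = 0 := by
  classical
  rw [← sum_invol G hs φ (fun d => by rw [hφ.1, add_neg_cancel]) Z S hS]
  have h := hφ.2 (fun v => if v ∈ Z then 1 else 0)
  rw [Finset.sum_filter]
  refine Eq.trans (Finset.sum_congr rfl (fun d _ => ?_)) h
  by_cases hd : G.vert d ∈ Z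
  · simp only [hd, if_true, one_mul]
  · simp only [hd, if_false, zero_mul]

/-- In a bridgeless graph no vertex set is left by exactly one edge-end. -/
theorem Bridgeless.two [Fintype V] [Fintype D] {G : MGraph V D} (hs : ∀ d, G.op d ≠ d)
    (hb : G.Bridgeless) (Z : Set V) (d : D) (h1 : G.vert d ∈ Z) (h2 : G.vert (G.op d) ∉ Z) :
    ∃ e, e ≠ d ∧ G.vert e ∈ Z ∧ G.vert (G.op e) ∉ Z := by
  classical
  by_contra hcon
  push Not at hcon
  obtain ⟨φ, hφ, hd⟩ := hb d
  have h := flow_cut G hs hφ Z.toFinset {d} (by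
    intro e
    rw [Finset.mem_singleton, Set.mem_toFinset, Set.mem_toFinset]
    constructor
    · rintro rfl
      exact ⟨h1, h2⟩
    · rintro ⟨h3, h4⟩
      by_contra h5
      exact h4 (hcon e h5 h3))
  rw [Finset.sum_singleton] at h
  exact hd h

end Q116.SC
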