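import Pool.Agent.Q116.SC.Simple

/-!
A non-colourable component, as a simple graph.
-/

namespace Q116.SC

open Finset

variable {V D V₀ D₀ : Type}

/-- At least three vertices, connected, and connected after the deletion of any vertex. -/
def TwoConnected {W : Type} (H : SimpleGraph W) : Prop :=
  2 < Nat.card W ∧ H.Connected ∧ ∀ w : W, (H.induce {w}ᶜ).Connected

/-- The edges have a colouring with three colours in which edges sharing a vertex differ. -/
def EdgeColorable3 {W : Type} (H : SimpleGraph W) : Prop :=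
  ∃ c : Sym2 W → Fin 3, ∀ u v w, H.Adj u v → H.Adj u w → c s(u, v) = c s(u, w) → v = w

/-- The simple graph `H` covers `A` by `f` on vertices and `F` on edge-ends; the edge-ends of a
simple graph are its darts, the dart `x` being the end at `x.fst` of the edge from `x.fst` to
`x.snd`. -/
structure SimpleCover {W : Type} (H : SimpleGraph W) (A : MGraph V D) (f : W → V)
    (F : H.Dart → D) : Prop where
  vert : ∀ x, A.vert (F x) = f x.fst
  op : ∀ x, F x.symm = A.op (F x)
  bij : ∀ w, Set.BijOn F {x | x.fst = w} {d | A.vert d = f w}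

/-- the simple graph of a simple multigraph -/
def toS (G : MGraph V D) (hG : G.IsSimple) : SimpleGraph V where
  Adj u v := ∃ d, G.vert d = u ∧ G.vert (G.op d) = v
  symm := ⟨by
    rintro u v ⟨d, h1, h2⟩
    exact ⟨G.op d, h2, by rw [G.op_op]; exact h1⟩⟩
  loopless := ⟨by
    rintro u ⟨d, h1, h2⟩
    exact hG.ne d (h2.trans h1.symm)⟩

theorem toS_adj (G : MGraph V D) (hG : G.IsSimple) (d : D) :
    (toS G hG).Adj (G.vert d) (G.vert (G.op d)) := ⟨d, rfl, rfl⟩

theorem exists_comp (G : MGraph V D) (hG : G.IsSimple) (hn : ¬ G.Colorable) :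
    ∃ K : (toS G hG).ConnectedComponent, ¬ EdgeColorable3 ((toS G hG).induce K.supp) := by
  classical
  by_contra hcon
  push Not at hcon
  apply hn
  choose cK hcK using hcon
  set col : (toS G hG).ConnectedComponent → V → V → Fin 3 := fun K u v =>
    if h : u ∈ K.supp ∧ v ∈ K.supp then cK K s(⟨u, h.1⟩, ⟨v, h.2⟩) else 0 with hcol
  have hsymm : ∀ K u v, col K u v = col K v u := by
    intro K u v
    simp only [hcol]
    by_cases h : u ∈ K.supp ∧ v ∈ K.supp
    · rw [dif_pos h, dif_pos h.symm, Sym2.eq_swap]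
    · rw [dif_neg h, dif_neg (fun h2 => h h2.symm)]
  have hK : ∀ d, (toS G hG).connectedComponentMk (G.vert (G.op d))
      = (toS G hG).connectedComponentMk (G.vert d) := by
    intro d
    exact SimpleGraph.ConnectedComponent.sound (toS_adj G hG d).symm.reachable
  refine ⟨fun d => col ((toS G hG).connectedComponentMk (G.vert d)) (G.vert d)
    (G.vert (G.op d)), ?_, ?_⟩
  · intro d
    beta_reduce
    rw [G.op_op, hK, hsymm]
  · intro d e h1 h2
    beta_reduce at h2
    rw [← h1] at h2
    set K := (toS G hG).connectedComponentMk (G.vert d) with hKdef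
    have m0 : G.vert d ∈ K.supp := rfl
    have m1 : G.vert (G.op d) ∈ K.supp := hK d
    have m2 : G.vert (G.op e) ∈ K.supp := by
      change (toS G hG).connectedComponentMk (G.vert (G.op e)) = K
      rw [hK e, ← h1]
    simp only [hcol] at h2
    rw [dif_pos ⟨m0, m1⟩, dif_pos ⟨m0, m2⟩] at h2
    have h3 := hcK K ⟨G.vert d, m0⟩ ⟨G.vert (G.op d), m1⟩ ⟨G.vert (G.op e), m2⟩
      (toS_adj G hG d) (by
        change (toS G hG).Adj (G.vert d) (G.vert (G.op e))
        rw [h1]
        exact toS_adj G hG e) h2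
    exact hG.inj d e h1 (congrArg Subtype.val h3)

section

variable [Fintype V] [Fintype D] (G : MGraph V D) (hG : G.IsSimple) (hGc : G.Cubic)
  (hb : G.Bridgeless) (K : (toS G hG).ConnectedComponent)

include hb in
/-- A vertex set of the component all of whose leaving edge-ends go to `w` contains the other
ends of two edge-ends at `w`. -/
theorem two_to (w : V) (hw : w ∈ K.supp) (Z : Set V) (hZK : Z ⊆ K.supp) (hwZ : w ∉ Z)
    (hne : Z.Nonempty) (hZ : ∀ d, G.vert d ∈ Z → G.vert (G.op d) ∉ Z → G.vert (G.op d) = w) :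
    ∃ d e, d ≠ e ∧ G.vert d = w ∧ G.vert e = w ∧ G.vert (G.op d) ∈ Z ∧
      G.vert (G.op e) ∈ Z := by
  obtain ⟨u, hu⟩ := hne
  have hreach : (toS G hG).Reachable u w := by
    have h1 : (toS G hG).connectedComponentMk u = K := hZK hu
    have h2 : (toS G hG).connectedComponentMk w = K := hw
    exact SimpleGraph.ConnectedComponent.exact (h1.trans h2.symm)
  obtain ⟨p⟩ := hreach
  obtain ⟨x, _, hx1, hx2⟩ := p.exists_boundary_dart Z hu hwZ
  obtain ⟨d, hd1, hd2⟩ := x.adj
  have hd1' : G.vert d ∈ Z := by rw [hd1]; exact hx1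
  have hd2' : G.vert (G.op d) ∉ Z := by rw [hd2]; exact hx2
  obtain ⟨e, hed, he1, he2⟩ := Bridgeless.two (IsSimple.op_ne hG) hb Z d hd1' hd2'
  refine ⟨G.op d, G.op e, fun h => hed (G.op_inj h).symm, hZ d hd1' hd2', hZ e he1 he2, ?_, ?_⟩
  · rw [G.op_op]; exact hd1'
  · rw [G.op_op]; exact he1

include hGc hb in
theorem comp_twoConnected : TwoConnected ((toS G hG).induce K.supp) := by
  classical
  have hconn : ((toS G hG).induce K.supp).Connected := K.connected_toSimpleGraph
  have hcard : 2 < Nat.card K.supp := by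
    obtain ⟨u⟩ := hconn.nonempty
    have h1 := hGc u.1
    have h2 : Nat.card {d // G.vert d = u.1} ≤ Nat.card K.supp := by
      have hm : ∀ d : {d // G.vert d = u.1}, G.vert (G.op d.1) ∈ K.supp := by
        intro d
        have h3 : (toS G hG).connectedComponentMk (G.vert (G.op d.1))
            = (toS G hG).connectedComponentMk (G.vert d.1) :=
          SimpleGraph.ConnectedComponent.sound (toS_adj G hG d.1).symm.reachable
        change (toS G hG).connectedComponentMk (G.vert (G.op d.1)) = K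
        rw [h3, d.2]
        exact u.2
      refine Nat.card_le_card_of_injective (fun d => (⟨G.vert (G.op d.1), hm d⟩ : K.supp)) ?_
      intro d e hde
      have h4 : G.vert (G.op d.1) = G.vert (G.op e.1) := congrArg Subtype.val hde
      exact Subtype.ext (hG.inj _ _ (d.2.trans e.2.symm) h4)
    omega
  refine ⟨hcard, hconn, ?_⟩
  intro w
  have hKadj : ∀ d, G.vert d ∈ K.supp → G.vert (G.op d) ∈ K.supp := by
    intro d hd
    have h3 : (toS G hG).connectedComponentMk (G.vert (G.op d))
        = (toS G hG).connectedComponentMk (G.vert d) :=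
      SimpleGraph.ConnectedComponent.sound (toS_adj G hG d).symm.reachable
    change (toS G hG).connectedComponentMk (G.vert (G.op d)) = K
    rw [h3]
    exact hd
  haveI hne : Nonempty (({w}ᶜ : Set K.supp)) := by
    by_contra hemp
    rw [not_nonempty_iff] at hemp
    have h1 : ∀ x : K.supp, x = w := by
      intro x
      by_contra h
      exact hemp.false ⟨x, h⟩
    have h2 : Nat.card K.supp ≤ 1 := by
      haveI : Subsingleton K.supp := ⟨fun a b => (h1 a).trans (h1 b).symm⟩
      exact Finite.card_le_one_iff_subsingleton.2 inferInstance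
    omega
  refine ⟨?_⟩
  intro u v
  by_contra hnr
  set H' := ((toS G hG).induce K.supp).induce ({w}ᶜ : Set K.supp) with hH'
  set Y : Set V := {x | ∃ (h1 : x ∈ K.supp) (h2 : (⟨x, h1⟩ : K.supp) ∈ ({w}ᶜ : Set K.supp)),
    H'.Reachable u ⟨⟨x, h1⟩, h2⟩} with hY
  set Y' : Set V := {x | ∃ (h1 : x ∈ K.supp) (h2 : (⟨x, h1⟩ : K.supp) ∈ ({w}ᶜ : Set K.supp)),
    ¬ H'.Reachable u ⟨⟨x, h1⟩, h2⟩} with hY'
  have hdisj : ∀ x, x ∈ Y → x ∈ Y' → False := by
    rintro x ⟨h1, h2, h3⟩ ⟨h4, h5, h6⟩
    exact h6 h3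
  obtain ⟨d1, d2, hd12, hd1, hd2, hd1', hd2'⟩ := two_to G hG hb K w.1 w.2 Y
    (by rintro x ⟨h1, _⟩; exact h1)
    (by rintro ⟨h1, h2, _⟩; exact h2 rfl)
    ⟨u.1.1, u.1.2, u.2, SimpleGraph.Reachable.refl _⟩
    (by
      rintro d ⟨h1, h2, h3⟩ h4
      by_contra h5
      apply h4
      have h6 : (⟨G.vert (G.op d), hKadj d h1⟩ : K.supp) ∈ ({w}ᶜ : Set K.supp) := by
        intro h7
        exact h5 (congrArg Subtype.val h7)
      refine ⟨hKadj d h1, h6, h3.trans ?_⟩
      apply SimpleGraph.Adj.reachable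
      exact toS_adj G hG d)
  obtain ⟨d3, d4, hd34, hd3, hd4, hd3', hd4'⟩ := two_to G hG hb K w.1 w.2 Y'
    (by rintro x ⟨h1, _⟩; exact h1)
    (by rintro ⟨h1, h2, _⟩; exact h2 rfl)
    ⟨v.1.1, v.1.2, v.2, hnr⟩
    (by
      rintro d ⟨h1, h2, h3⟩ h4
      by_contra h5
      apply h4
      have h6 : (⟨G.vert (G.op d), hKadj d h1⟩ : K.supp) ∈ ({w}ᶜ : Set K.supp) := by
        intro h7
        exact h5 (congrArg Subtype.val h7)
      refine ⟨hKadj d h1, h6, fun h7 => h3 (h7.trans ?_)⟩
      apply SimpleGraph.Adj.reachable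
      exact (toS_adj G hG d).symm)
  have h13 : d1 ≠ d3 := by
    rintro rfl; exact hdisj _ hd1' hd3'
  have h14 : d1 ≠ d4 := by
    rintro rfl; exact hdisj _ hd1' hd4'
  have h23 : d2 ≠ d3 := by
    rintro rfl; exact hdisj _ hd2' hd3'
  have h24 : d2 ≠ d4 := by
    rintro rfl; exact hdisj _ hd2' hd4'
  have hsub : ({d1, d2, d3, d4} : Finset D) ⊆ univ.filter (fun d => G.vert d = w.1) := by
    intro d hd
    simp only [Finset.mem_insert, Finset.mem_singleton] at hd
    simp only [mem_filter, mem_univ, true_and]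
    rcases hd with rfl | rfl | rfl | rfl <;> assumption
  have hle := Finset.card_le_card hsub
  rw [Cubic.card hGc] at hle
  have h4 : ({d1, d2, d3, d4} : Finset D).card = 4 := by
    rw [Finset.card_insert_of_notMem, Finset.card_insert_of_notMem,
      Finset.card_insert_of_notMem, Finset.card_singleton]
    · simpa using hd34
    · simp [h23, h24]
    · simp [hd12, h13, h14]
  omega

include hG in
theorem comp_cover {A : MGraph V₀ D₀} {f : V → V₀} {F : D → D₀} (hc : IsCover G A f F) :
    ∃ (f' : K.supp → V₀) (F' : ((toS G hG).induce K.supp).Dart → D₀),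
      SimpleCover ((toS G hG).induce K.supp) A f' F' := by
  classical
  have hadj : ∀ x : ((toS G hG).induce K.supp).Dart,
      ∃ d, G.vert d = x.fst.1 ∧ G.vert (G.op d) = x.snd.1 := fun x => x.adj
  choose dd hdd1 hdd2 using hadj
  refine ⟨fun v => f v.1, fun x => F (dd x), ?_, ?_, ?_⟩
  · intro x
    rw [hc.vert, hdd1]
  · intro x
    have h1 : dd x.symm = G.op (dd x) := by
      apply hG.inj
      · rw [hdd1, hdd2]; rfl
      · rw [hdd2, G.op_op, hdd1]; rfl
    rw [h1, hc.op]
  · intro w
    refine ⟨?_, ?_, ?_⟩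
    · intro x hx
      have hx' : x.fst = w := hx
      change A.vert (F (dd x)) = f w.1
      rw [hc.vert, hdd1, hx']
    · intro x hx y hy hxy
      have hx' : x.fst = w := hx
      have hy' : y.fst = w := hy
      have h1 : G.vert (dd x) = w.1 := by rw [hdd1, hx']
      have h2 : G.vert (dd y) = w.1 := by rw [hdd1, hy']
      have h3 : dd x = dd y := (hc.bij w.1 (F (dd x)) (by rw [hc.vert, h1])).unique
        ⟨h1, rfl⟩ ⟨h2, hxy.symm⟩
      apply SimpleGraph.Dart.ext
      refine Prod.ext (hx'.trans hy'.symm) ?_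
      apply Subtype.ext
      change x.snd.1 = y.snd.1
      rw [← hdd2, ← hdd2, h3]
    · intro d hd
      obtain ⟨z, ⟨hz1, hz2⟩, -⟩ := hc.bij w.1 d hd
      have hK : G.vert (G.op z) ∈ K.supp := by
        have h3 : (toS G hG).connectedComponentMk (G.vert (G.op z))
            = (toS G hG).connectedComponentMk (G.vert z) :=
          SimpleGraph.ConnectedComponent.sound (toS_adj G hG z).symm.reachable
        change (toS G hG).connectedComponentMk (G.vert (G.op z)) = K
        rw [h3, hz1]
        exact w.2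
      have hadj' : ((toS G hG).induce K.supp).Adj w ⟨G.vert (G.op z), hK⟩ := ⟨z, hz1, rfl⟩
      refine ⟨⟨(w, ⟨G.vert (G.op z), hK⟩), hadj'⟩, rfl, ?_⟩
      have h1 : dd ⟨(w, ⟨G.vert (G.op z), hK⟩), hadj'⟩ = z := by
        apply hG.inj
        · rw [hdd1, hz1]
        · rw [hdd2]
      change F (dd ⟨(w, ⟨G.vert (G.op z), hK⟩), hadj'⟩) = d
      rw [h1, hz2]

end

theorem cover_surjective {W : Type} {H : SimpleGraph W} {A : MGraph V D} {f : W → V}
    {F : H.Dart → D} (hc : SimpleCover H A f F) (hW : Nonempty W) (hA : A.Connected) :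
    Function.Surjective f := by
  obtain ⟨w⟩ := hW
  intro v
  have h := hA.2 (f w) v
  induction h with
  | refl => exact ⟨w, rfl⟩
  | @tail b c _ hbc ih =>
    obtain ⟨x, hx⟩ := ih
    obtain ⟨d, hd1, hd2⟩ := hbc
    have h1 : d ∈ {d | A.vert d = f x} := by
      change A.vert d = f x
      rw [hd1, hx]
    obtain ⟨y, hy1, hy2⟩ := (hc.bij x).surjOn h1
    refine ⟨y.snd, ?_⟩
    have h2 := hc.vert y.symm
    rw [hc.op, hy2] at h2
    have h3 : y.symm.fst = y.snd := rfl
    rw [h3] at h2
    rw [← h2, hd2]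

/-- Every non-colourable cubic graph is covered by a simple 2-connected non-colourable graph. -/
theorem main (V D : Type) [Finite V] [Finite D] (A : MGraph V D) (hA : A.Connected)
    (hcub : A.Cubic) (hn : ¬ A.Colorable) :
    ∃ (W : Type) (_ : Finite W) (H : SimpleGraph W), TwoConnected H ∧ ¬ EdgeColorable3 H ∧
      ∃ (f : W → V) (F : H.Dart → D), SimpleCover H A f F ∧ Function.Surjective f := by
  classical
  obtain ⟨V1, D1, hV1, hD1, G1, hc1, hs1, hn1⟩ := exists_noSemi A hn
  haveI := Fintype.ofFinite V1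
  haveI := Fintype.ofFinite D1
  obtain ⟨V2, D2, hV2, hD2, G2, hc2, hs2, hn2, hb2⟩ :=
    exists_bridgeless G1 (hc1.cubic hcub) hs1 hn1
  obtain ⟨V3, D3, hV3, hD3, G3, hc3, hs3, hn3, hb3⟩ :=
    exists_simple G2 (hc2.cubic (hc1.cubic hcub)) hs2 hn2 hb2
  obtain ⟨K, hK⟩ := exists_comp G3 hs3 hn3
  obtain ⟨f, F, hcov⟩ := hc3.trans (hc2.trans hc1)
  obtain ⟨f', F', hcov'⟩ := comp_cover G3 hs3 K hcov
  have h2 := comp_twoConnected G3 hs3 (hcov.cubic hcub) hb3 K
  refine ⟨K.supp, inferInstance, (toS G3 hs3).induce K.supp, h2, hK, f', F', hcov', ?_⟩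
  exact cover_surjective hcov' h2.2.1.nonempty hA

end Q116.SC
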