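import Pool.Agent.Q116.SC.Basic

/-!
Flow or cut; minimal vertex sets left by a single edge-end.
-/

namespace Q116.SC

open Finset

variable {V D : Type}

theorem MGraph.op_inj (G : MGraph V D) {d e : D} (h : G.op d = G.op e) : d = e := by
  rw [← G.op_op d, h, G.op_op]

/-- the steps used in `flow_or_cut` -/
def Step (G : MGraph V D) (X : Set V) (d : D) (a b : V) : Prop :=
  ∃ e, e ≠ d ∧ e ≠ G.op d ∧ G.vert e = a ∧ G.vert (G.op e) = b ∧ a ∈ X ∧ b ∈ X

theorem walk_flow [Fintype D] (G : MGraph V D) (X : Set V) (d : D) (a b : V)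
    (h : Relation.ReflTransGen (Step G X d) a b) :
    ∃ ψ : D → ZMod 3, (∀ e, ψ (G.op e) = - ψ e) ∧ ψ d = 0 ∧
      (∀ e, G.vert e ∉ X ∨ G.vert (G.op e) ∉ X → ψ e = 0) ∧
      ∀ p : V → ZMod 3, ∑ e, p (G.vert e) * ψ e = p a - p b := by
  classical
  induction h with
  | refl =>
    refine ⟨fun _ => 0, fun _ => by simp, rfl, fun _ _ => rfl, fun p => by simp⟩
  | @tail b c _ hbc ih =>
    obtain ⟨ψ, h1, h2, h3, h4⟩ := ih
    obtain ⟨e, he1, he2, he3, he4, he5, he6⟩ := hbc
    refine ⟨fun x => ψ x + (if x = e then 1 else 0) - (if x = G.op e then 1 else 0),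
      ?_, ?_, ?_, ?_⟩
    · intro x
      have h5 : G.op x = e ↔ x = G.op e := by
        constructor
        · intro h; rw [← h, G.op_op]
        · intro h; rw [h, G.op_op]
      have h6 : G.op x = G.op e ↔ x = e := ⟨G.op_inj, fun h => by rw [h]⟩
      simp only [h1, h5, h6]
      ring
    · have h5 : d ≠ e := he1.symm
      have h6 : d ≠ G.op e := by
        intro h; apply he2; rw [h, G.op_op]
      simp only [h2, h5, h6, if_false]
      ring
    · intro x hx
      have h5 : x ≠ e := by
        rintro rfl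
        rcases hx with hx | hx
        · exact hx (he3 ▸ he5)
        · exact hx (he4 ▸ he6)
      have h6 : x ≠ G.op e := by
        rintro rfl
        rw [G.op_op] at hx
        rcases hx with hx | hx
        · exact hx (he4 ▸ he6)
        · exact hx (he3 ▸ he5)
      simp only [h3 x hx, h5, h6, if_false]
      ring
    · intro p
      have h7 : ∀ x, p (G.vert x) * (ψ x + (if x = e then 1 else 0)
          - (if x = G.op e then 1 else 0))
          = p (G.vert x) * ψ x + (if x = e then p (G.vert x) else 0)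
          - (if x = G.op e then p (G.vert x) else 0) := by
        intro x
        split_ifs <;> ring
      simp only [h7]
      rw [Finset.sum_sub_distrib, Finset.sum_add_distrib, h4 p]
      rw [Finset.sum_ite_eq' univ e (fun x => p (G.vert x)),
        Finset.sum_ite_eq' univ (G.op e) (fun x => p (G.vert x))]
      simp only [mem_univ, if_true, he3, he4]
      ring

theorem flow_or_cut [Fintype D] (G : MGraph V D) (X : Set V) (d : D)
    (hd1 : G.vert d ∈ X) (hd2 : G.vert (G.op d) ∈ X) (hd : G.op d ≠ d) :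
    (∃ φ, G.IsFlow φ ∧ φ d ≠ 0 ∧ ∀ e, G.vert e ∉ X ∨ G.vert (G.op e) ∉ X → φ e = 0) ∨
    ∃ Y ⊆ X, G.vert (G.op d) ∈ Y ∧ G.vert d ∉ Y ∧
      ∀ e, G.vert e ∈ Y → G.vert (G.op e) ∈ X → G.vert (G.op e) ∉ Y → e = G.op d := by
  classical
  by_cases h : Relation.ReflTransGen (Step G X d) (G.vert (G.op d)) (G.vert d)
  · left
    obtain ⟨ψ, h1, h2, h3, h4⟩ := walk_flow G X d _ _ h
    refine ⟨fun x => ψ x + (if x = d then 1 else 0) - (if x = G.op d then 1 else 0),
      ⟨?_, ?_⟩, ?_, ?_⟩
    · intro x
      have h5 : G.op x = d ↔ x = G.op d := by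
        constructor
        · intro h; rw [← h, G.op_op]
        · intro h; rw [h, G.op_op]
      have h6 : G.op x = G.op d ↔ x = d := ⟨G.op_inj, fun h => by rw [h]⟩
      simp only [h1, h5, h6]
      ring
    · intro p
      have h7 : ∀ x, p (G.vert x) * (ψ x + (if x = d then 1 else 0)
          - (if x = G.op d then 1 else 0))
          = p (G.vert x) * ψ x + (if x = d then p (G.vert x) else 0)
          - (if x = G.op d then p (G.vert x) else 0) := by
        intro x
        split_ifs <;> ring
      simp only [h7]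
      rw [Finset.sum_sub_distrib, Finset.sum_add_distrib, h4 p]
      rw [Finset.sum_ite_eq' univ d (fun x => p (G.vert x)),
        Finset.sum_ite_eq' univ (G.op d) (fun x => p (G.vert x))]
      simp only [mem_univ, if_true]
      ring
    · simp only [h2, if_true, hd.symm, if_false]
      decide
    · intro x hx
      have h5 : x ≠ d := by
        rintro rfl
        rcases hx with hx | hx
        · exact hx hd1
        · exact hx hd2
      have h6 : x ≠ G.op d := by
        rintro rfl
        rw [G.op_op] at hx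
        rcases hx with hx | hx
        · exact hx hd2
        · exact hx hd1
      simp only [h3 x hx, h5, h6, if_false]
      ring
  · right
    refine ⟨{b | Relation.ReflTransGen (Step G X d) (G.vert (G.op d)) b}, ?_, ?_, h, ?_⟩
    · intro b hb
      rcases Relation.ReflTransGen.cases_tail hb with rfl | ⟨c, _, hc⟩
      · exact hd2
      · obtain ⟨e, _, _, _, _, _, h6⟩ := hc
        exact h6
    · exact Relation.ReflTransGen.refl
    · intro e he1 he2 he3
      by_contra hne
      have hX : G.vert e ∈ X := by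
        rcases Relation.ReflTransGen.cases_tail he1 with h5 | ⟨c, _, hc⟩
        · rw [h5]; exact hd2
        · obtain ⟨e, _, _, _, _, _, h6⟩ := hc
          exact h6
      by_cases hed : e = d
      · rw [hed] at he1
        exact h he1
      · exact he3 (Relation.ReflTransGen.tail he1 ⟨e, hed, hne, rfl, rfl, hX, he2⟩)

/-- A leaf: a vertex set left by exactly one edge-end, all of whose inner edge-ends carry a flow
inside the set. -/
structure IsLeaf [Fintype D] (G : MGraph V D) (X : Set V) (e : D) : Prop where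
  mem : G.vert e ∈ X
  out : G.vert (G.op e) ∉ X
  only : ∀ d, G.vert d ∈ X → G.vert (G.op d) ∉ X → d = e
  flow : ∀ d, G.vert d ∈ X → G.vert (G.op d) ∈ X →
    ∃ φ, G.IsFlow φ ∧ φ d ≠ 0 ∧ ∀ e, G.vert e ∉ X ∨ G.vert (G.op e) ∉ X → φ e = 0

theorem exists_leaf [Finite V] [Fintype D] (G : MGraph V D) (hs : ∀ d, G.op d ≠ d)
    (hb : ¬ G.Bridgeless) : ∃ X e, IsLeaf G X e := by
  classical
  have h1 : ∃ (n : ℕ) (X : Set V) (e : D), X.ncard = n ∧ G.vert e ∈ X ∧ G.vert (G.op e) ∉ X ∧
      ∀ d, G.vert d ∈ X → G.vert (G.op d) ∉ X → d = e := by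
    unfold MGraph.Bridgeless at hb
    push Not at hb
    obtain ⟨d, hd⟩ := hb
    rcases flow_or_cut G Set.univ d (Set.mem_univ _) (Set.mem_univ _) (hs d) with h | h
    · obtain ⟨φ, h2, h3, -⟩ := h
      exact absurd (hd φ h2) h3
    · obtain ⟨Y, -, h2, h3, h4⟩ := h
      refine ⟨_, Y, G.op d, rfl, h2, by rw [G.op_op]; exact h3, ?_⟩
      intro e he1 he2
      exact h4 e he1 (Set.mem_univ _) he2
  classical
  obtain ⟨X, e, hX1, hX2, hX3, hX4⟩ := Nat.find_spec h1
  have hmin := fun (m : ℕ) (hm : m < Nat.find h1) => Nat.find_min h1 hm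
  refine ⟨X, e, hX2, hX3, hX4, ?_⟩
  intro d hd1 hd2
  rcases flow_or_cut G X d hd1 hd2 (hs d) with h | h
  · exact h
  · exfalso
    obtain ⟨Y, hYX, h2, h3, h4⟩ := h
    by_cases hw : G.vert e ∈ Y
    · -- use X \ Y
      have hlt : (X \ Y).ncard < Nat.find h1 := by
        rw [← hX1]
        apply Set.ncard_lt_ncard _ (Set.toFinite X)
        refine ⟨Set.diff_subset, fun hsub => ?_⟩
        exact (hsub hd2).2 h2
      refine hmin _ hlt ⟨X \ Y, d, rfl, ⟨hd1, h3⟩, fun hh => hh.2 h2, ?_⟩
      intro e' he1 he2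
      by_cases h5 : G.vert (G.op e') ∈ X
      · have h6 : G.vert (G.op e') ∈ Y := by
          by_contra h7
          exact he2 ⟨h5, h7⟩
        have h8 := h4 (G.op e') h6 (by rw [G.op_op]; exact he1.1) (by
          rw [G.op_op]; exact he1.2)
        exact G.op_inj h8
      · have h6 := hX4 e' he1.1 h5
        rw [h6] at he1
        exact absurd hw he1.2
    · have hlt : Y.ncard < Nat.find h1 := by
        rw [← hX1]
        apply Set.ncard_lt_ncard _ (Set.toFinite X)
        refine ⟨hYX, fun hsub => ?_⟩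
        exact h3 (hsub hd1)
      refine hmin _ hlt ⟨Y, G.op d, rfl, h2, by rw [G.op_op]; exact h3, ?_⟩
      intro e' he1 he2
      by_cases h5 : G.vert (G.op e') ∈ X
      · exact h4 e' he1 h5 he2
      · have h6 := hX4 e' (hYX he1) h5
        rw [h6] at he1
        exact absurd he1 hw

end Q116.SC
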