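import Pool.Agent.Q116.SC.Lift

/-!
A cubic graph without semi-edges which is not bridgeless has a bridgeless non-colourable cover.
-/

namespace Q116.SC

open Finset

variable {V D : Type}

section

variable [Fintype V] [Fintype D] (G : MGraph V D) (X : Set V) (e f : D)

open Classical in
/-- the permutations of the cover -/
noncomputable def sh (d : D) (i : Pet) : Pet :=
  if d = f then nxt i else if d = G.op f then prv i
  else if G.vert d ∉ X ∧ G.vert (G.op d) ∉ X then spk i else i

variable {G X e f}

theorem sh_sh (hs : ∀ d, G.op d ≠ d) (d : D) (i : Pet) :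
    sh G X f (G.op d) (sh G X f d i) = i := by
  classical
  have hf : G.op f ≠ f := hs f
  by_cases h1 : d = f
  · subst h1
    simp only [sh, if_true, hf, if_false, prv_nxt]
  · by_cases h2 : d = G.op f
    · subst h2
      simp only [sh, G.op_op, if_true, hf, if_false, nxt_prv]
    · have h3 : ¬ G.op d = f := by
        intro h; apply h2; rw [← h, G.op_op]
      have h4 : ¬ G.op d = G.op f := fun h => h1 (G.op_inj h)
      by_cases h5 : G.vert d ∉ X ∧ G.vert (G.op d) ∉ X
      · have h6 : G.vert (G.op d) ∉ X ∧ G.vert (G.op (G.op d)) ∉ X := by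
          rw [G.op_op]; exact ⟨h5.2, h5.1⟩
        simp only [sh, h1, h2, h3, h4, if_false]
        rw [if_pos h5, if_pos h6, spk_spk]
      · have h6 : ¬ (G.vert (G.op d) ∉ X ∧ G.vert (G.op (G.op d)) ∉ X) := by
          rw [G.op_op]; exact fun h => h5 ⟨h.2, h.1⟩
        simp only [sh, h1, h2, h3, h4, if_false]
        rw [if_neg h5, if_neg h6]

theorem two_colours : ∀ a b : Fin 3,
    (∀ k : Fin 3, (0 : ZMod 2) = (if a = k then (1 : ZMod 2) else 0) + (if b = k then 1 else 0)) →
    a = b := by decide

theorem three_colours : ∀ a b c : Fin 3,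
    (∀ k : Fin 3, (1 : ZMod 2) = (if a = k then (1 : ZMod 2) else 0) +
      ((if b = k then 1 else 0) + (if c = k then 1 else 0))) →
    a ≠ b ∧ b ≠ c ∧ a ≠ c := by decide

theorem leaf_not_colorable (hG : G.Cubic) (hs : ∀ d, G.op d ≠ d) (hX : IsLeaf G X e)
    (hfe : f ≠ e) (hf1 : G.vert f = G.vert e) (hf2 : G.vert (G.op f) ∈ X) :
    ¬ (G.lift (sh G X f) (sh_sh hs)).Colorable := by
  classical
  rintro ⟨c, hc1, hc2⟩
  set H := G.lift (sh G X f) (sh_sh hs) with hH
  have hHc : H.Cubic := (G.lift_covers (sh G X f) (sh_sh hs)).cubic hG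
  have hHs : ∀ z, H.op z ≠ z := fun z hz => hs z.1 (congrArg Prod.fst hz)
  have hfX : G.vert f ∈ X := hf1 ▸ hX.mem
  have hfo : G.op f ≠ f := hs f
  have hef : e ≠ G.op f := by
    intro h
    apply hX.out
    rw [h, G.op_op]
    exact hfX
  have hse : ∀ i, sh G X f e i = i := by
    intro i
    have : ¬ (G.vert e ∉ X ∧ G.vert (G.op e) ∉ X) := fun h => h.1 hX.mem
    simp only [sh, hfe.symm, hef, if_false]
    rw [if_neg this]
  have hsf : ∀ i, sh G X f f i = nxt i := by
    intro i; simp only [sh, if_true]
  have hsof : ∀ i, sh G X f (G.op f) i = prv i := by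
    intro i; simp only [sh, if_true, hfo, if_false]
  -- spokes
  have hA : ∀ i, c (e, spk i) = c (e, i) := by
    intro i
    have h1 : ∀ j, c (G.op e, j) = c (e, j) := by
      intro j
      have h2 := hc1 (e, j)
      have h3 : H.op (e, j) = (G.op e, j) := Prod.ext rfl (hse j)
      rw [h3] at h2
      exact h2
    rw [← h1, ← h1]
    apply two_colours
    intro k
    have h2 := parity hHc hHs c hc1 hc2 ((univ.filter (fun v => v ∉ X)) ×ˢ {i, spk i})
      {(G.op e, spk i), (G.op e, i)} (by
        rintro ⟨d, j⟩
        have h5 : H.vert (d, j) = (G.vert d, j) := rfl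
        have h6 : H.vert (H.op (d, j)) = (G.vert (G.op d), sh G X f d j) := rfl
        rw [h5, h6]
        simp only [Finset.mem_insert, Finset.mem_singleton, Prod.mk.injEq, Finset.mem_product,
          mem_filter, mem_univ, true_and]
        constructor
        · rintro (⟨rfl, rfl⟩ | ⟨rfl, rfl⟩)
          · refine ⟨⟨hX.out, Or.inr rfl⟩, ?_⟩
            rw [G.op_op]
            exact fun h => h.1 hX.mem
          · refine ⟨⟨hX.out, Or.inl rfl⟩, ?_⟩
            rw [G.op_op]
            exact fun h => h.1 hX.mem
        · rintro ⟨⟨h7, h8⟩, h9⟩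
          by_cases h10 : G.vert (G.op d) ∈ X
          · have h11 : G.op d = e := hX.only _ h10 (by rw [G.op_op]; exact h7)
            have h12 : d = G.op e := by rw [← h11, G.op_op]
            rcases h8 with h8 | h8
            · exact Or.inr ⟨h12, h8⟩
            · exact Or.inl ⟨h12, h8⟩
          · exfalso
            apply h9
            refine ⟨h10, ?_⟩
            have h11 : d ≠ f := fun h => h7 (h ▸ hfX)
            have h12 : d ≠ G.op f := fun h => h7 (h ▸ hf2)
            have h13 : sh G X f d j = spk j := by
              simp only [sh, h11, h12, if_false]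
              rw [if_pos ⟨h7, h10⟩]
            rw [h13]
            rcases h8 with rfl | rfl
            · exact Or.inr rfl
            · rw [spk_spk]; exact Or.inl rfl) k
    rw [Finset.card_product, Finset.card_pair (spk_ne i).symm, Nat.cast_mul] at h2
    have h3 : ((2 : ℕ) : ZMod 2) = 0 := by decide
    rw [h3, mul_zero, Finset.sum_pair (by
      intro h
      exact spk_ne i (congrArg Prod.snd h))] at h2
    exact h2
  -- leaves
  have hXodd : ((X.toFinset).card : ZMod 2) = 1 := by
    have := parity_deg hG hs X.toFinset {e} (by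
      intro d
      rw [Finset.mem_singleton, Set.mem_toFinset, Set.mem_toFinset]
      constructor
      · rintro rfl
        exact ⟨hX.mem, hX.out⟩
      · rintro ⟨h1, h2⟩
        exact hX.only d h1 h2)
    rw [this, Finset.card_singleton]
    decide
  have hB : ∀ i, c (e, i) ≠ c (f, i) ∧ c (f, i) ≠ c (f, prv i) ∧ c (e, i) ≠ c (f, prv i) := by
    intro i
    have h1 : c (G.op f, i) = c (f, prv i) := by
      have h2 := hc1 (f, prv i)
      have h3 : H.op (f, prv i) = (G.op f, i) := by
        refine Prod.ext rfl ?_
        change sh G X f f (prv i) = i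
        rw [hsf, nxt_prv]
      rw [h3] at h2
      exact h2
    rw [← h1]
    apply three_colours
    intro k
    have h2 := parity hHc hHs c hc1 hc2 (X.toFinset ×ˢ {i})
      {(e, i), (f, i), (G.op f, i)} (by
        rintro ⟨d, j⟩
        have h5 : H.vert (d, j) = (G.vert d, j) := rfl
        have h6 : H.vert (H.op (d, j)) = (G.vert (G.op d), sh G X f d j) := rfl
        rw [h5, h6]
        simp only [Finset.mem_insert, Finset.mem_singleton, Prod.mk.injEq, Finset.mem_product,
          Set.mem_toFinset]
        constructor
        · rintro (⟨rfl, rfl⟩ | ⟨rfl, rfl⟩ | ⟨rfl, rfl⟩)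
          · exact ⟨⟨hX.mem, rfl⟩, fun h => hX.out h.1⟩
          · refine ⟨⟨hfX, rfl⟩, fun h => ?_⟩
            rw [hsf] at h
            exact nxt_ne _ h.2
          · refine ⟨⟨hf2, rfl⟩, fun h => ?_⟩
            rw [hsof] at h
            exact prv_ne _ h.2
        · rintro ⟨⟨h7, rfl⟩, h9⟩
          by_cases h10 : G.vert (G.op d) ∈ X
          · by_cases h11 : d = f
            · exact Or.inr (Or.inl ⟨h11, rfl⟩)
            · by_cases h12 : d = G.op f
              · exact Or.inr (Or.inr ⟨h12, rfl⟩)
              · exfalso
                apply h9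
                refine ⟨h10, ?_⟩
                have h13 : ¬ (G.vert d ∉ X ∧ G.vert (G.op d) ∉ X) := fun h => h.1 h7
                simp only [sh, h11, h12, if_false]
                rw [if_neg h13]
          · exact Or.inl ⟨hX.only d h7 h10, rfl⟩) k
    rw [Finset.card_product, Finset.card_singleton, mul_one, hXodd] at h2
    rw [Finset.sum_insert (by
      simp only [Finset.mem_insert, Finset.mem_singleton, Prod.mk.injEq, and_true]
      rintro (h | h)
      · exact hfe h.symm
      · exact hef h), Finset.sum_pair (by
      intro h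
      exact hfo (congrArg Prod.fst h).symm)] at h2
    exact h2
  exact petersen (fun i => c (e, i)) (fun i => c (f, i)) hA hB

theorem leaf_bridgeless (hG : G.Cubic) (hs : ∀ d, G.op d ≠ d) (hX : IsLeaf G X e)
    (hfe : f ≠ e) (hf1 : G.vert f = G.vert e) (hf2 : G.vert (G.op f) ∈ X) :
    (G.lift (sh G X f) (sh_sh hs)).Bridgeless := by
  classical
  have hfX : G.vert f ∈ X := hf1 ▸ hX.mem
  have hfo : G.op f ≠ f := hs f
  have hef : e ≠ G.op f := by
    intro h
    apply hX.out
    rw [h, G.op_op]
    exact hfX
  obtain ⟨φ, hφ, hφf, hφX⟩ := hX.flow f hfX hf2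
  -- the flow ψ with ψ f = 1
  set ψ : D → ZMod 3 := fun d => φ f * φ d with hψ
  have hψf : ψ f = 1 := by
    have : ∀ x : ZMod 3, x ≠ 0 → x * x = 1 := by decide
    exact this _ hφf
  have hψop : ∀ d, ψ (G.op d) = - ψ d := by
    intro d
    simp only [hψ, hφ.1]
    ring
  have hψsum : ∀ p : V → ZMod 3, ∑ d, p (G.vert d) * ψ d = 0 := by
    intro p
    have := hφ.2 p
    have h2 : ∑ d, p (G.vert d) * ψ d = φ f * ∑ d, p (G.vert d) * φ d := by
      rw [Finset.mul_sum]
      refine Finset.sum_congr rfl (fun d _ => ?_)
      simp only [hψ]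
      ring
    rw [h2, this, mul_zero]
  have hψX : ∀ d, G.vert d ∉ X ∨ G.vert (G.op d) ∉ X → ψ d = 0 := by
    intro d hd
    simp only [hψ, hφX d hd, mul_zero]
  have hψe : ψ e = 0 := hψX e (Or.inr hX.out)
  -- the flow F
  set F : D × Pet → ZMod 3 := fun z => if G.vert z.1 ∈ X then
    tt (prv z.2) * ψ z.1 + (if z.1 = f then sg z.2 else 0) - (if z.1 = e then sg z.2 else 0)
    else sg z.2 with hF
  have hFflow : (G.lift (sh G X f) (sh_sh hs)).IsFlow F := by
    refine ⟨?_, ?_⟩
    · rintro ⟨d, i⟩
      change F (G.op d, sh G X f d i) = - F (d, i)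
      by_cases h1 : d = f
      · subst h1
        have h2 : sh G X d d i = nxt i := by simp only [sh, if_true]
        have h3 : ¬ G.op d = e := fun h => hef h.symm
        simp only [hF, h2, hf2, hfX, if_true, hfo, if_false, h3, hfe, hψop, hψf, prv_nxt]
        rw [tt_eq i]
        ring
      · by_cases h2 : d = G.op f
        · subst h2
          have h3 : sh G X f (G.op f) i = prv i := by simp only [sh, if_true, hfo, if_false]
          have h4 : ¬ G.op f = e := fun h => hef h.symm
          simp only [hF, h3, G.op_op, hf2, hfX, if_true, hfo, if_false, h4, hfe, hψop, hψf]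
          rw [tt_eq (prv i)]
          ring
        · have h3 : ¬ G.op d = f := by
            intro h; apply h2; rw [← h, G.op_op]
          by_cases h4 : G.vert d ∈ X
          · by_cases h5 : G.vert (G.op d) ∈ X
            · have h6 : sh G X f d i = i := by
                have h7 : ¬ (G.vert d ∉ X ∧ G.vert (G.op d) ∉ X) := fun h => h.1 h4
                simp only [sh, h1, h2, if_false]
                rw [if_neg h7]
              have h7 : ¬ d = e := fun h => hX.out (h ▸ h5)
              have h8 : ¬ G.op d = e := by
                intro h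
                apply hX.out
                rw [← h, G.op_op]
                exact h4
              simp only [hF, h6, h4, h5, if_true, h3, h8, h1, h7, if_false, hψop]
              ring
            · have h6 : d = e := hX.only d h4 h5
              subst h6
              have h7 : sh G X f d i = i := by
                have h7 : ¬ (G.vert d ∉ X ∧ G.vert (G.op d) ∉ X) := fun h => h.1 h4
                simp only [sh, h1, h2, if_false]
                rw [if_neg h7]
              simp only [hF, h7, h4, h5, if_true, if_false, h1, hψe]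
              ring
          · by_cases h5 : G.vert (G.op d) ∈ X
            · have h6 : G.op d = e := hX.only _ h5 (by rw [G.op_op]; exact h4)
              have h7 : sh G X f d i = i := by
                have h7 : ¬ (G.vert d ∉ X ∧ G.vert (G.op d) ∉ X) := fun h => h.2 h5
                simp only [sh, h1, h2, if_false]
                rw [if_neg h7]
              have h9 : ¬ e = f := fun h => hfe h.symm
              have h10 := hX.mem
              simp only [hF, h7, h4, h6, h10, if_true, if_false, h9, hψe]
              ring
            · have h7 : sh G X f d i = spk i := by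
                simp only [sh, h1, h2, if_false]
                rw [if_pos ⟨h4, h5⟩]
              simp only [hF, h7, h4, h5, if_false, sg_spk]
    · intro p
      rw [Fintype.sum_prod_type_right]
      apply Finset.sum_eq_zero
      intro i _
      change ∑ d, p (G.vert d, i) * F (d, i) = 0
      have h1 : ∀ d, p (G.vert d, i) * F (d, i)
          = tt (prv i) * (p (G.vert d, i) * ψ d)
            + (if d = f then p (G.vert d, i) * sg i else 0)
            - (if d = e then p (G.vert d, i) * sg i else 0)
            + (fun v => if v ∈ X then 0 else p (v, i) * sg i) (G.vert d) := by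
        intro d
        by_cases h2 : G.vert d ∈ X
        · simp only [hF, h2, if_true]
          split_ifs <;> ring
        · have h3 : ¬ d = f := fun h => h2 (h ▸ hfX)
          have h4 : ¬ d = e := fun h => h2 (h ▸ hX.mem)
          simp only [hF, h2, if_false, h3, h4, hψX d (Or.inl h2)]
          ring
      rw [Finset.sum_congr rfl (fun d _ => h1 d), Finset.sum_add_distrib,
        Finset.sum_sub_distrib, Finset.sum_add_distrib, ← Finset.mul_sum,
        hψsum (fun v => p (v, i)),
        sum_cubic hG (fun v => if v ∈ X then 0 else p (v, i) * sg i)]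
      rw [Finset.sum_ite_eq' univ f (fun d => p (G.vert d, i) * sg i),
        Finset.sum_ite_eq' univ e (fun d => p (G.vert d, i) * sg i)]
      simp only [mem_univ, if_true, hf1]
      ring
  rintro ⟨d, i⟩
  by_cases h1 : G.vert d ∈ X
  · by_cases h2 : G.vert (G.op d) ∈ X
    · obtain ⟨χ, hχ1, hχ2, -⟩ := hX.flow d h1 h2
      exact ⟨_, lift_flow _ _ hχ1, hχ2⟩
    · have h3 : d = e := hX.only d h1 h2
      refine ⟨F, hFflow, ?_⟩
      subst h3
      have h4 : ¬ d = f := fun h => hfe h.symm
      simp only [hF, h1, if_true, h4, if_false, hψe]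
      rw [mul_zero, zero_add, zero_sub]
      exact neg_ne_zero.2 (sg_ne i)
  · refine ⟨F, hFflow, ?_⟩
    simp only [hF, h1, if_false]
    exact sg_ne i

end

/-- A non-colourable cubic graph without semi-edges has a bridgeless such cover. -/
theorem exists_bridgeless [Fintype V] [Fintype D] (G : MGraph V D) (hG : G.Cubic)
    (hs : ∀ d, G.op d ≠ d) (hn : ¬ G.Colorable) :
    ∃ (V' D' : Type) (_ : Fintype V') (_ : Fintype D') (G' : MGraph V' D'),
      Covers G' G ∧ (∀ d, G'.op d ≠ d) ∧ ¬ G'.Colorable ∧ G'.Bridgeless := by
  classical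
  by_cases hb : G.Bridgeless
  · exact ⟨V, D, inferInstance, inferInstance, G, Covers.refl G, hs, hn, hb⟩
  · obtain ⟨X, e, hX⟩ := exists_leaf G hs hb
    have h3 := Cubic.card hG (G.vert e)
    have h4 : ∃ f ∈ univ.filter (fun d => G.vert d = G.vert e), f ≠ e := by
      apply Finset.exists_mem_ne
      rw [h3]
      norm_num
    obtain ⟨f, hf, hfe⟩ := h4
    simp only [mem_filter, mem_univ, true_and] at hf
    have hf2 : G.vert (G.op f) ∈ X := by
      by_contra h5
      exact hfe (hX.only f (hf ▸ hX.mem) h5)
    refine ⟨V × Pet, D × Pet, inferInstance, inferInstance, G.lift (sh G X f) (sh_sh hs),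
      G.lift_covers _ _, ?_, ?_, ?_⟩
    · exact fun z hz => hs z.1 (congrArg Prod.fst hz)
    · exact leaf_not_colorable hG hs hX hfe hf hf2
    · exact leaf_bridgeless hG hs hX hfe hf hf2

end Q116.SC
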