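import Pool.Agent.Q116.SC.Leaf

/-!
Permutation voltage covers; the double cover without semi-edges; the cover along the Petersen
graph of a graph with a bridge.
-/

namespace Q116.SC

open Finset

variable {V D : Type}

/-- The cover with vertex set `V × P` in which the edge-end `(d, i)` is joined to
`(op d, s d i)`. -/
def MGraph.lift (G : MGraph V D) {P : Type} (s : D → P → P)
    (hs : ∀ d i, s (G.op d) (s d i) = i) : MGraph (V × P) (D × P) where
  vert z := (G.vert z.1, z.2)
  op z := (G.op z.1, s z.1 z.2)
  op_op z := by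
    ext
    · simp only [G.op_op]
    · simp only [hs]

theorem MGraph.lift_isCover (G : MGraph V D) {P : Type} (s : D → P → P)
    (hs : ∀ d i, s (G.op d) (s d i) = i) :
    IsCover (G.lift s hs) G Prod.fst Prod.fst where
  vert _ := rfl
  op _ := rfl
  bij w d hd := by
    refine ⟨(d, w.2), ⟨?_, rfl⟩, ?_⟩
    · exact Prod.ext hd rfl
    · rintro y ⟨h1, h2⟩
      have h3 : y.2 = w.2 := congrArg Prod.snd h1
      exact Prod.ext h2 h3

theorem MGraph.lift_covers (G : MGraph V D) {P : Type} (s : D → P → P)
    (hs : ∀ d i, s (G.op d) (s d i) = i) : Covers (G.lift s hs) G :=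
  ⟨_, _, G.lift_isCover s hs⟩

theorem lift_flow [Fintype D] {G : MGraph V D} {P : Type} [Fintype P] (s : D → P → P)
    (hs : ∀ d i, s (G.op d) (s d i) = i) {φ : D → ZMod 3} (hφ : G.IsFlow φ) :
    (G.lift s hs).IsFlow (fun z => φ z.1) := by
  refine ⟨fun z => hφ.1 z.1, fun p => ?_⟩
  rw [Fintype.sum_prod_type_right]
  apply Finset.sum_eq_zero
  intro i _
  exact hφ.2 (fun v => p (v, i))

/-- A non-colourable cubic graph has a non-colourable cover without semi-edges. -/
theorem exists_noSemi [Finite V] [Finite D] (G : MGraph V D) (hn : ¬ G.Colorable) :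
    ∃ (V' D' : Type) (_ : Finite V') (_ : Finite D') (G' : MGraph V' D'),
      Covers G' G ∧ (∀ d, G'.op d ≠ d) ∧ ¬ G'.Colorable := by
  classical
  let s : D → Bool → Bool := fun d i => if G.op d = d then !i else i
  have hs : ∀ d i, s (G.op d) (s d i) = i := by
    intro d i
    by_cases h : G.op d = d
    · simp only [s, h, if_true, Bool.not_not]
    · have h2 : ¬ G.op (G.op d) = G.op d := fun h3 => h (G.op_inj h3)
      simp only [s, h, h2, if_false]
  refine ⟨V × Bool, D × Bool, inferInstance, inferInstance, G.lift s hs, G.lift_covers s hs,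
    ?_, ?_⟩
  · rintro ⟨d, i⟩ h
    have h1 : G.op d = d := congrArg Prod.fst h
    have h2 : s d i = i := congrArg Prod.snd h
    simp only [s, h1, if_true] at h2
    cases i <;> exact absurd h2 (by decide)
  · rintro ⟨c, hc1, hc2⟩
    apply hn
    refine ⟨fun d => c (d, false), ?_, ?_⟩
    · intro d
      by_cases h : G.op d = d
      · rw [h]
      · have h3 := hc1 (d, false)
        have h4 : (G.lift s hs).op (d, false) = (G.op d, false) := by
          refine Prod.ext rfl ?_
          change s d false = false
          simp only [s, h, if_false]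
        rw [h4] at h3
        exact h3
    · intro d e h1 h2
      have h3 := hc2 (d, false) (e, false) (Prod.ext h1 rfl) h2
      exact congrArg Prod.fst h3

/-! ### The Petersen graph -/

/-- Vertices of the Petersen graph: outer ones `(j, false)` and inner ones `(j, true)`. -/
abbrev Pet := Fin 5 × Bool

/-- next vertex on the outer or on the inner 5-cycle -/
def nxt (i : Pet) : Pet := (if i.2 then i.1 + 2 else i.1 + 1, i.2)
/-- previous vertex -/
def prv (i : Pet) : Pet := (if i.2 then i.1 + 3 else i.1 + 4, i.2)
/-- other end of the spoke -/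
def spk (i : Pet) : Pet := (i.1, !i.2)

theorem prv_nxt (i : Pet) : prv (nxt i) = i := by revert i; decide
theorem nxt_prv (i : Pet) : nxt (prv i) = i := by revert i; decide
theorem spk_spk (i : Pet) : spk (spk i) = i := by revert i; decide
theorem nxt_ne (i : Pet) : nxt i ≠ i := by revert i; decide
theorem prv_ne (i : Pet) : prv i ≠ i := by revert i; decide
theorem spk_ne (i : Pet) : spk i ≠ i := by revert i; decide

/-- the flow values on the spokes -/
def sg (i : Pet) : ZMod 3 := if (i.1 = 4) = (i.2 = true) then 1 else -1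

/-- the flow values on the two 5-cycles -/
def tt : Pet → ZMod 3
  | (0, false) => 1
  | (1, false) => 2
  | (2, false) => 0
  | (3, false) => 1
  | (4, false) => 0
  | (0, true) => 2
  | (1, true) => 1
  | (2, true) => 1
  | (3, true) => 0
  | (4, true) => 2

/-- three distinct colours -/
def tri (x y z : Fin 3) : Bool := x != y && y != z && x != z

theorem tri_of {x y z : Fin 3} (h : x ≠ y ∧ y ≠ z ∧ x ≠ z) : tri x y z = true := by
  revert x y z; decide

theorem pet_aux : ∀ a4 a0 s0 : Fin 3, tri s0 a0 a4 = true →
    ∀ a1 s1 : Fin 3, tri s1 a1 a0 = true →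
    ∀ a2 s2 : Fin 3, tri s2 a2 a1 = true → ∀ a3 s3 : Fin 3, tri s3 a3 a2 = true →
    ∀ s4 : Fin 3, tri s4 a4 a3 = true → ∀ b3 b0 : Fin 3, tri s0 b0 b3 = true →
    ∀ b2 : Fin 3, tri s2 b2 b0 = true → ∀ b4 : Fin 3, tri s4 b4 b2 = true →
    ∀ b1 : Fin 3, tri s1 b1 b4 = true → tri s3 b3 b1 = false := by decide +kernel

/-- The Petersen graph is not 3-edge-colourable. -/
theorem petersen (sc t : Pet → Fin 3) (h1 : ∀ i, sc (spk i) = sc i)
    (h2 : ∀ i, sc i ≠ t i ∧ t i ≠ t (prv i) ∧ sc i ≠ t (prv i)) : False := by
  have g0 := h2 (0, false)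
  have g1 := h2 (1, false)
  have g2 := h2 (2, false)
  have g3 := h2 (3, false)
  have g4 := h2 (4, false)
  have k0 := h2 (0, true)
  have k1 := h2 (1, true)
  have k2 := h2 (2, true)
  have k3 := h2 (3, true)
  have k4 := h2 (4, true)
  rw [show sc (0, true) = sc (0, false) from h1 (0, false)] at k0
  rw [show sc (1, true) = sc (1, false) from h1 (1, false)] at k1
  rw [show sc (2, true) = sc (2, false) from h1 (2, false)] at k2
  rw [show sc (3, true) = sc (3, false) from h1 (3, false)] at k3
  rw [show sc (4, true) = sc (4, false) from h1 (4, false)] at k4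
  rw [show prv (0, false) = (4, false) by decide] at g0
  rw [show prv (1, false) = (0, false) by decide] at g1
  rw [show prv (2, false) = (1, false) by decide] at g2
  rw [show prv (3, false) = (2, false) by decide] at g3
  rw [show prv (4, false) = (3, false) by decide] at g4
  rw [show prv (0, true) = (3, true) by decide] at k0
  rw [show prv (1, true) = (4, true) by decide] at k1
  rw [show prv (2, true) = (0, true) by decide] at k2
  rw [show prv (3, true) = (1, true) by decide] at k3
  rw [show prv (4, true) = (2, true) by decide] at k4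
  have h := pet_aux _ _ _ (tri_of g0) _ _ (tri_of g1) _ _ (tri_of g2) _ _ (tri_of g3) _
    (tri_of g4) _ _ (tri_of k0) _ (tri_of k2) _ (tri_of k4) _ (tri_of k1)
  rw [tri_of k3] at h
  exact Bool.noConfusion h

theorem sg_ne (i : Pet) : sg i ≠ 0 := by revert i; decide
theorem sg_spk (i : Pet) : sg (spk i) = - sg i := by revert i; decide
theorem tt_eq (i : Pet) : tt i = tt (prv i) + sg i := by revert i; decide

end Q116.SC
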