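import Pool.Agent.Q116.SC.Leafy

/-!
A bridgeless non-colourable cubic graph has a simple such cover.
-/

namespace Q116.SC

open Finset

variable {V D V₁ D₁ : Type}

/-- No loops, no semi-edges, no multiple edges. -/
structure MGraph.IsSimple (G : MGraph V D) : Prop where
  ne : ∀ d, G.vert (G.op d) ≠ G.vert d
  inj : ∀ d e, G.vert d = G.vert e → G.vert (G.op d) = G.vert (G.op e) → d = e

theorem IsSimple.op_ne {G : MGraph V D} (h : G.IsSimple) (d : D) : G.op d ≠ d :=
  fun h2 => h.ne d (by rw [h2])

/-! ### A simple cover -/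

open Classical in
/-- the translation by `1_d - 1_{op d}` -/
noncomputable def tr (G : MGraph V D) (d : D) (x : D → ZMod 3) : D → ZMod 3 :=
  fun e => x e + (if e = d then 1 else 0) - (if e = G.op d then 1 else 0)

theorem tr_tr (G : MGraph V D) (d : D) (x : D → ZMod 3) : tr G (G.op d) (tr G d x) = x := by
  funext e
  unfold tr
  rw [G.op_op]
  ring

theorem lift_simple (G : MGraph V D) (hs : ∀ d, G.op d ≠ d) :
    (G.lift (tr G) (tr_tr G)).IsSimple where
  ne := by
    rintro ⟨d, x⟩ h
    have h1 : tr G d x = x := congrArg Prod.snd h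
    have h2 := congrFun h1 d
    simp only [tr, if_true, (hs d).symm, if_false, sub_zero] at h2
    have h3 : ∀ y : ZMod 3, y + 1 ≠ y := by decide
    exact h3 _ h2
  inj := by
    rintro ⟨d, x⟩ ⟨e, y⟩ h1 h2
    have hxy : x = y := congrArg Prod.snd h1
    subst hxy
    have h3 : tr G d x = tr G e x := congrArg Prod.snd h2
    have h4 := congrFun h3 d
    by_cases hde : d = e
    · rw [hde]
    · exfalso
      simp only [tr, if_true, (hs d).symm, if_false, sub_zero, hde, add_zero] at h4
      have h5 : ∀ y : ZMod 3, y + 1 ≠ y ∧ y + 1 ≠ y - 1 := by decide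
      by_cases h6 : d = G.op e
      · rw [if_pos h6] at h4
        exact (h5 _).2 h4
      · rw [if_neg h6, sub_zero] at h4
        exact (h5 _).1 h4

/-! ### Switching -/

open Classical in
/-- every edge of `G` is cut and joined to copies of `H`, cut at the edge of `g d` -/
noncomputable def sw (G : MGraph V D) (hs : ∀ d, G.op d ≠ d) (H : MGraph V₁ D₁)
    (hH : ∀ y, H.op y ≠ y) (g : D → D₁) : MGraph (V ⊕ D × V₁) (D ⊕ D × D₁) where
  vert
    | Sum.inl d => Sum.inl (G.vert d)
    | Sum.inr (d, y) => Sum.inr (d, H.vert y)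
  op
    | Sum.inl d => Sum.inr (d, H.op (g d))
    | Sum.inr (d, y) => if y = H.op (g d) then Sum.inl d
        else if y = g d then Sum.inr (G.op d, g (G.op d)) else Sum.inr (d, H.op y)
  op_op := by
    rintro (d | ⟨d, y⟩)
    · simp only [if_true]
    · by_cases h1 : y = H.op (g d)
      · simp only [h1, if_true]
      · by_cases h2 : y = g d
        · have h3 : ¬ g (G.op d) = H.op (g (G.op d)) := fun h => hH _ h.symm
          have h4 : ¬ g d = H.op (g d) := fun h => hH _ h.symm
          simp only [h2, h4, if_false, if_true, h3, G.op_op]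
        · have h3 : ¬ H.op y = H.op (g d) := fun h => h2 (H.op_inj h)
          have h4 : ¬ H.op y = g d := by
            intro h; apply h1; rw [← h, H.op_op]
          simp only [h1, h2, if_false, h3, h4, H.op_op]

section

variable (G : MGraph V D) (hs : ∀ d, G.op d ≠ d) (H : MGraph V₁ D₁)
    (hH : ∀ y, H.op y ≠ y) (g : D → D₁)

theorem sw_vert_inl (d : D) : (sw G hs H hH g).vert (Sum.inl d) = Sum.inl (G.vert d) := rfl
theorem sw_vert_inr (d : D) (y : D₁) :
    (sw G hs H hH g).vert (Sum.inr (d, y)) = Sum.inr (d, H.vert y) := rfl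
theorem sw_op_inl (d : D) :
    (sw G hs H hH g).op (Sum.inl d) = Sum.inr (d, H.op (g d)) := rfl
theorem sw_op_1 (d : D) :
    (sw G hs H hH g).op (Sum.inr (d, H.op (g d))) = Sum.inl d := by
  simp only [sw, if_true]
theorem sw_op_2 (d : D) :
    (sw G hs H hH g).op (Sum.inr (d, g d)) = Sum.inr (G.op d, g (G.op d)) := by
  have h : ¬ g d = H.op (g d) := fun h => hH _ h.symm
  simp only [sw, h, if_true, if_false]
theorem sw_op_3 (d : D) (y : D₁) (h1 : y ≠ H.op (g d)) (h2 : y ≠ g d) :
    (sw G hs H hH g).op (Sum.inr (d, y)) = Sum.inr (d, H.op y) := by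
  simp only [sw, h1, h2, if_false]

theorem sw_isCover {f₁ : V₁ → V} {F₁ : D₁ → D} (hc : IsCover H G f₁ F₁)
    (hg : ∀ d, F₁ (g d) = d) :
    IsCover (sw G hs H hH g) G (Sum.elim id (fun z => f₁ z.2)) (Sum.elim id (fun z => F₁ z.2)) where
  vert := by
    rintro (d | ⟨d, y⟩)
    · rfl
    · exact hc.vert y
  op := by
    rintro (d | ⟨d, y⟩)
    · rw [sw_op_inl]
      simp only [Sum.elim_inr, Sum.elim_inl, id, hc.op, hg]
    · by_cases h1 : y = H.op (g d)
      · subst h1
        rw [sw_op_1]
        simp only [Sum.elim_inr, Sum.elim_inl, id, hc.op, hg, G.op_op]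
      · by_cases h2 : y = g d
        · subst h2
          rw [sw_op_2]
          simp only [Sum.elim_inr, hg]
        · rw [sw_op_3 _ _ _ _ _ _ _ h1 h2]
          simp only [Sum.elim_inr, hc.op]
  bij := by
    rintro (v | ⟨e, v⟩) d hd
    · refine ⟨Sum.inl d, ⟨?_, rfl⟩, ?_⟩
      · rw [sw_vert_inl]
        exact congrArg Sum.inl hd
      · rintro (e | ⟨e, y⟩) ⟨h1, h2⟩
        · exact congrArg Sum.inl h2
        · rw [sw_vert_inr] at h1
          exact absurd h1 (by simp)
    · obtain ⟨y, ⟨hy1, hy2⟩, hy3⟩ := hc.bij v d hd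
      refine ⟨Sum.inr (e, y), ⟨?_, hy2⟩, ?_⟩
      · rw [sw_vert_inr, hy1]
      · rintro (e' | ⟨e', y'⟩) ⟨h1, h2⟩
        · rw [sw_vert_inl] at h1
          exact absurd h1 (by simp)
        · rw [sw_vert_inr] at h1
          have h3 : (e', H.vert y') = (e, v) := Sum.inr_injective h1
          have h4 : e' = e := congrArg Prod.fst h3
          have h5 : H.vert y' = v := congrArg Prod.snd h3
          rw [h4, hy3 y' ⟨h5, h2⟩]

theorem sw_simple (hHs : H.IsSimple) : (sw G hs H hH g).IsSimple where
  ne := by
    rintro (d | ⟨d, y⟩) h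
    · rw [sw_op_inl, sw_vert_inr, sw_vert_inl] at h
      exact absurd h (by simp)
    · by_cases h1 : y = H.op (g d)
      · subst h1
        rw [sw_op_1, sw_vert_inr, sw_vert_inl] at h
        exact absurd h (by simp)
      · by_cases h2 : y = g d
        · subst h2
          rw [sw_op_2, sw_vert_inr, sw_vert_inr] at h
          exact hs d (congrArg Prod.fst (Sum.inr_injective h))
        · rw [sw_op_3 _ _ _ _ _ _ _ h1 h2, sw_vert_inr, sw_vert_inr] at h
          exact hHs.ne y (congrArg Prod.snd (Sum.inr_injective h))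
  inj := by
    rintro (d | ⟨d, y⟩) (e | ⟨e, z⟩) h h'
    · rw [sw_op_inl, sw_op_inl, sw_vert_inr, sw_vert_inr] at h'
      rw [show d = e from congrArg Prod.fst (Sum.inr_injective h')]
    · rw [sw_vert_inl, sw_vert_inr] at h
      exact absurd h (by simp)
    · rw [sw_vert_inl, sw_vert_inr] at h
      exact absurd h (by simp)
    · rw [sw_vert_inr, sw_vert_inr] at h
      have h3 := Sum.inr_injective h
      have h4 : d = e := congrArg Prod.fst h3
      have h5 : H.vert y = H.vert z := congrArg Prod.snd h3
      subst h4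
      by_cases h1 : y = H.op (g d)
      · by_cases h2 : z = H.op (g d)
        · rw [h1, h2]
        · exfalso
          rw [h1, sw_op_1, sw_vert_inl] at h'
          by_cases h6 : z = g d
          · rw [h6, sw_op_2, sw_vert_inr] at h'
            exact absurd h' (by simp)
          · rw [sw_op_3 _ _ _ _ _ _ _ h2 h6, sw_vert_inr] at h'
            exact absurd h' (by simp)
      · by_cases h2 : z = H.op (g d)
        · exfalso
          rw [h2, sw_op_1, sw_vert_inl] at h'
          by_cases h6 : y = g d
          · rw [h6, sw_op_2, sw_vert_inr] at h'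
            exact absurd h' (by simp)
          · rw [sw_op_3 _ _ _ _ _ _ _ h1 h6, sw_vert_inr] at h'
            exact absurd h' (by simp)
        · by_cases h6 : y = g d
          · by_cases h7 : z = g d
            · rw [h6, h7]
            · exfalso
              rw [h6, sw_op_2, sw_op_3 _ _ _ _ _ _ _ h2 h7, sw_vert_inr, sw_vert_inr] at h'
              exact hs d (congrArg Prod.fst (Sum.inr_injective h'))
          · by_cases h7 : z = g d
            · exfalso
              rw [h7, sw_op_2, sw_op_3 _ _ _ _ _ _ _ h1 h6, sw_vert_inr, sw_vert_inr] at h'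
              exact hs d (congrArg Prod.fst (Sum.inr_injective h')).symm
            · rw [sw_op_3 _ _ _ _ _ _ _ h1 h6, sw_op_3 _ _ _ _ _ _ _ h2 h7, sw_vert_inr,
                sw_vert_inr] at h'
              rw [hHs.inj y z h5 (congrArg Prod.snd (Sum.inr_injective h'))]

theorem sw_flow [Fintype D] [Fintype D₁] {f₁ : V₁ → V} {F₁ : D₁ → D} (hc : IsCover H G f₁ F₁)
    (hg : ∀ d, F₁ (g d) = d) {φ : D → ZMod 3} (hφ : G.IsFlow φ)
    (hφ₁ : H.IsFlow (fun y => φ (F₁ y))) :
    (sw G hs H hH g).IsFlow (fun z => φ (Sum.elim id (fun z => F₁ z.2) z)) := by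
  refine ⟨fun z => ?_, fun p => ?_⟩
  · beta_reduce
    rw [(sw_isCover G hs H hH g hc hg).op, hφ.1]
  · rw [Fintype.sum_sum_type]
    have h1 := hφ.2 (fun v => p (Sum.inl v))
    have h2 : ∑ z : D × D₁, p ((sw G hs H hH g).vert (Sum.inr z)) *
        φ (Sum.elim id (fun z => F₁ z.2) (Sum.inr z : D ⊕ D × D₁)) = 0 := by
      rw [Fintype.sum_prod_type]
      apply Finset.sum_eq_zero
      intro d _
      exact hφ₁.2 (fun v => p (Sum.inr (d, v)))
    rw [h2, add_zero]
    exact h1

theorem sw_not_colorable [Fintype V₁] [Fintype D] [Fintype D₁] (hGc : G.Cubic)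
    (hHc : H.Cubic) (hsw : (sw G hs H hH g).Cubic) (hn : ¬ G.Colorable) :
    ¬ (sw G hs H hH g).Colorable := by
  classical
  rintro ⟨c, hc1, hc2⟩
  apply hn
  have hsw_ns : ∀ z, (sw G hs H hH g).op z ≠ z := by
    rintro (d | ⟨d, y⟩) h
    · rw [sw_op_inl] at h
      exact absurd h (by simp)
    · by_cases h1 : y = H.op (g d)
      · subst h1
        rw [sw_op_1] at h
        exact absurd h (by simp)
      · by_cases h2 : y = g d
        · subst h2
          rw [sw_op_2] at h
          exact hs d (congrArg Prod.fst (Sum.inr_injective h))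
        · rw [sw_op_3 _ _ _ _ _ _ _ h1 h2] at h
          exact hH y (congrArg Prod.snd (Sum.inr_injective h))
  have heven : (Fintype.card V₁ : ZMod 2) = 0 := by
    have := parity_deg hHc hH univ ∅ (by intro d; simp)
    simpa using this
  have hkey : ∀ d, c (Sum.inr (d, H.op (g d))) = c (Sum.inr (d, g d)) := by
    intro d
    apply two_colours
    intro k
    have hinj : Function.Injective (fun v : V₁ => (Sum.inr (d, v) : V ⊕ D × V₁)) := by
      intro v v' h
      exact congrArg Prod.snd (Sum.inr_injective h)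
    have hmem : ∀ z : V ⊕ D × V₁, z ∈ (univ : Finset V₁).image
        (fun v : V₁ => (Sum.inr (d, v) : V ⊕ D × V₁)) ↔ ∃ v, z = Sum.inr (d, v) := by
      intro z
      simp only [Finset.mem_image, mem_univ, true_and]
      constructor
      · rintro ⟨v, h⟩; exact ⟨v, h.symm⟩
      · rintro ⟨v, h⟩; exact ⟨v, h.symm⟩
    have h2 := parity hsw hsw_ns c hc1 hc2
      ((univ : Finset V₁).image (fun v : V₁ => (Sum.inr (d, v) : V ⊕ D × V₁)))
      {Sum.inr (d, H.op (g d)), Sum.inr (d, g d)} (by
        intro z
        rw [hmem, hmem, Finset.mem_insert, Finset.mem_singleton]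
        constructor
        · rintro (rfl | rfl)
          · refine ⟨⟨_, rfl⟩, ?_⟩
            rw [sw_op_1]
            rintro ⟨v, h⟩
            rw [sw_vert_inl] at h
            exact absurd h (by simp)
          · refine ⟨⟨_, rfl⟩, ?_⟩
            rw [sw_op_2]
            rintro ⟨v, h⟩
            rw [sw_vert_inr] at h
            exact hs d (congrArg Prod.fst (Sum.inr_injective h))
        · rintro ⟨⟨v, h3⟩, h4⟩
          rcases z with e | ⟨e, y⟩
          · rw [sw_vert_inl] at h3
            exact absurd h3 (by simp)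
          · rw [sw_vert_inr] at h3
            have h5 : e = d := congrArg Prod.fst (Sum.inr_injective h3)
            subst h5
            by_cases h6 : y = H.op (g e)
            · left; rw [h6]
            · by_cases h7 : y = g e
              · right; rw [h7]
              · exfalso
                apply h4
                rw [sw_op_3 _ _ _ _ _ _ _ h6 h7]
                exact ⟨_, rfl⟩) k
    rw [Finset.card_image_of_injective _ hinj, Finset.card_univ, heven, Finset.sum_pair (by
      intro h
      exact hH _ (congrArg Prod.snd (Sum.inr_injective h)))] at h2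
    exact h2
  refine ⟨fun d => c (Sum.inl d), ?_, ?_⟩
  · intro d
    have h1 : c (Sum.inr (d, H.op (g d))) = c (Sum.inl d) := by
      have := hc1 (Sum.inl d)
      rw [sw_op_inl] at this
      exact this
    have h2 : c (Sum.inr (G.op d, H.op (g (G.op d)))) = c (Sum.inl (G.op d)) := by
      have := hc1 (Sum.inl (G.op d))
      rw [sw_op_inl] at this
      exact this
    have h3 : c (Sum.inr (G.op d, g (G.op d))) = c (Sum.inr (d, g d)) := by
      have := hc1 (Sum.inr (d, g d))
      rw [sw_op_2] at this
      exact this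
    beta_reduce
    rw [← h2, hkey, h3, ← hkey, h1]
  · intro d e h1 h2
    have := hc2 (Sum.inl d) (Sum.inl e) (by rw [sw_vert_inl, sw_vert_inl, h1]) h2
    exact Sum.inl_injective this

end

/-- A bridgeless non-colourable cubic graph has a simple such cover. -/
theorem exists_simple [Fintype V] [Fintype D] (G : MGraph V D) (hG : G.Cubic)
    (hs : ∀ d, G.op d ≠ d) (hn : ¬ G.Colorable) (hb : G.Bridgeless) :
    ∃ (V' D' : Type) (_ : Fintype V') (_ : Fintype D') (G' : MGraph V' D'),
      Covers G' G ∧ G'.IsSimple ∧ ¬ G'.Colorable ∧ G'.Bridgeless := by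
  classical
  set H := G.lift (tr G) (tr_tr G) with hHdef
  have hHcov : IsCover H G Prod.fst Prod.fst := G.lift_isCover _ _
  have hHs : H.IsSimple := lift_simple G hs
  have hHn : ∀ y, H.op y ≠ y := IsSimple.op_ne hHs
  have hHc : H.Cubic := hHcov.cubic hG
  set g : D → D × (D → ZMod 3) := fun d => (d, 0) with hg
  have hgd : ∀ d, (g d).1 = d := fun _ => rfl
  have hcov := sw_isCover G hs H hHn g hHcov hgd
  refine ⟨_, _, inferInstance, inferInstance, sw G hs H hHn g, ⟨_, _, hcov⟩,
    sw_simple G hs H hHn g hHs, sw_not_colorable G hs H hHn g hG hHc (hcov.cubic hG) hn, ?_⟩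
  intro z
  obtain ⟨φ, hφ, hφz⟩ := hb (Sum.elim id (fun z => z.2.1) z)
  exact ⟨_, sw_flow G hs H hHn g hHcov hgd hφ (lift_flow _ _ hφ), hφz⟩

end Q116.SC
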